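import Pool.Agent.Helper21.STAR.Step

/-!
Lemma STAR: cleaning a lift of a cobicircular grid (with or without apex) by fewer than `k` vertex
stars.  (Problem MP_5165fa_co.)
-/

open Set BIC
open scoped Matroid

namespace BICS

universe u

/-- Statement of Lemma EXT for given `k` and `s`. -/
def ExtStmt (k s m : ℕ) : Prop :=
  ∀ {α : Type u} (P : Matroid α) [P.Finite] (E S : Set α) (ends : α → Sym2 (ℕ × ℕ)) (w : ℕ × ℕ)
    (x y n a₀ b₀ u : ℕ), E ⊆ P.E → Bic P E ends → GrdP E S ends w x y n →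
    rect a₀ b₀ m m ⊆ rect (x + 1) (y + 1) (n - 2) (n - 2) → k ≤ u →
    (∀ a b c, s ≤ c → rect a b c c ⊆ rect a₀ b₀ m m →
      rk P P.E + rk P (E \ pl E ends (rect a b c c)) + u =
        rk P E + rk P (P.E \ pl E ends (rect a b c c))) → HasUniformMinor P k

section tiles

variable {α : Type*} {P N L : Matroid α} {E S : Set α} {ends : α → Sym2 (ℕ × ℕ)} {w : ℕ × ℕ}
  {x y n : ℕ}

lemma adj_sep {a b c d a' b' c' d' : ℕ} (hs : a + c < a') :
    Disjoint (rect a b c d) (rect a' b' c' d') ∧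
      ∀ p ∈ rect a b c d, ∀ q ∈ rect a' b' c' d', ¬ adj p q := by
  constructor
  · rw [Set.disjoint_left]
    intro p hp hq
    rw [mem_rct2] at hp hq
    omega
  · intro p hp q hq h
    rw [mem_rct2] at hp hq
    unfold adj at h
    omega

lemma rect_finite' (a b c d : ℕ) : (rect a b c d).Finite := by
  refine (rect_finite 0 0 (a + b + c + d)).subset ?_
  rintro p ⟨h1, h2, h3, h4⟩
  exact ⟨by omega, by omega, by omega, by omega⟩

/-- a vertex star has at most five edges -/
lemma star_card (hG : GrdP E S ends w x y n) {v : ℕ × ℕ}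
    (hv : v ∈ rect (x + 1) (y + 1) (n - 2) (n - 2)) : (pl E ends {v}).ncard ≤ 5 := by
  classical
  obtain ⟨h1, h2, h3, h4⟩ := hv
  let F : Finset (Sym2 (ℕ × ℕ)) := {s(v, w), s(v, (v.1, v.2 + 1)), s(v, (v.1 + 1, v.2)),
    s(v, (v.1, v.2 - 1)), s(v, (v.1 - 1, v.2))}
  have hF : F.card ≤ 5 := Finset.card_le_five
  have hsub : ends '' (pl E ends {v}) ⊆ (F : Set (Sym2 (ℕ × ℕ))) := by
    rintro _ ⟨e, ⟨he, v', hv', hev⟩, rfl⟩
    rw [Set.mem_singleton_iff] at hv'
    subst hv'
    by_cases heS : e ∈ S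
    · obtain ⟨p, q, h5, h6, _, _⟩ := hG.grd.mem e heS
      have H : ∀ r : ℕ × ℕ, adj v' r → s(v', r) ∈ F := by
        rintro ⟨r1, r2⟩ hr
        obtain ⟨v1, v2⟩ := v'
        simp only [F, Finset.mem_insert, Finset.mem_singleton]
        rcases hr with ⟨g1, g2 | g2⟩ | ⟨g1, g2 | g2⟩ <;> simp only at g1 g2 <;> subst g1 <;> subst g2
        · exact Or.inr (Or.inl rfl)
        · exact Or.inr (Or.inr (Or.inr (Or.inl (by simp))))
        · exact Or.inr (Or.inr (Or.inl rfl))
        · exact Or.inr (Or.inr (Or.inr (Or.inr (by simp))))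
      rw [h5] at hev ⊢
      rcases Sym2.mem_iff.1 hev with h7 | h7
      · subst h7
        exact H q h6
      · subst h7
        rw [Sym2.eq_swap]
        refine H p ?_
        unfold adj at h6 ⊢
        omega
    · obtain ⟨z, hz, h5⟩ := hG.star e ⟨he, heS⟩
      rw [h5] at hev ⊢
      rcases Sym2.mem_iff.1 hev with h7 | h7
      · subst h7
        simp [F]
      · exfalso
        apply hG.out
        rw [← h7]
        exact ⟨by omega, by omega, by omega, by omega⟩
  have hinj : InjOn ends (pl E ends {v}) := hG.inj.mono pl_sub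
  have h5 : (ends '' pl E ends {v}).ncard ≤ F.card := by
    rw [← Set.ncard_coe_finset]
    exact Set.ncard_le_ncard hsub (Finset.finite_toSet F)
  rw [hinj.ncard_image] at h5
  omega

/-- one more star -/
lemma star_step [P.Finite] [L.Finite] [N.Finite]
    (hN : ∀ X ⊆ E, rk N X + rk P E = rk P (E \ X) + X.ncard) (hQ : Quo L N E)
    (hB : Bic P E ends) (hG : GrdP E S ends w x y n) (hn : 3 ≤ n) {Z : Set α}
    {V R : Set (ℕ × ℕ)} {u j : ℕ} (hRf : R.Finite) (hV : Gd x y n V) (hR : Gd x y n R)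
    (hVR : Gd x y n (V ∪ R)) (hd : Disjoint V R) (hs : ∀ p ∈ V, ∀ q ∈ R, ¬ adj p q)
    (hZ : Z ⊆ pl E ends V) (hu : rk N (pl E ends R) + u ≤ rk L (pl E ends R))
    (hju : j < u) (hZj : rk N Z + j ≤ rk L Z) (hZc : Z.ncard ≤ 5 * j) :
    ∃ Z' : Set α, Z' ⊆ pl E ends (V ∪ R) ∧
      Z'.ncard ≤ 5 * (j + 1) ∧ rk N Z' + (j + 1) ≤ rk L Z' := by
  classical
  have hZE : Z ⊆ E := hZ.trans pl_sub
  have hsk : ∀ Y ⊆ pl E ends R, rk N (Z ∪ Y) = rk N Z + rk N Y := fun Y hY =>
    skew_pl hN hB hG hn hV hR hVR hd hs hZ hY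
  by_cases hd1 : rk N Z + (j + 1) ≤ rk L Z
  · exact ⟨Z, hZ.trans (pl_mono subset_union_left), by omega, hd1⟩
  by_cases hall : ∀ v ∈ R, rk L (Z ∪ pl E ends {v}) + 1 ≤ rk L Z + (pl E ends {v}).ncard
  · exfalso
    have h1 := stars_dep (L := L) hN hQ hB hG hn hZE hRf.toFinset
      (fun v hv => hR.1 ((Set.Finite.mem_toFinset _).1 hv))
      (fun v hv Y hY => by
        have hv' : v ∈ R := (Set.Finite.mem_toFinset _).1 hv
        exact (hsk Y (hY.trans (pl_mono (by
          rintro _ rfl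
          exact hv')))).ge)
      (fun v hv => hall v ((Set.Finite.mem_toFinset _).1 hv))
    rw [Set.Finite.coe_toFinset, ← Set.ncard_eq_toFinset_card _ hRf] at h1
    have h2 := rk_pl hN hB hG hn hR
    have h3 := hsk (pl E ends R) (subset_refl _)
    have h4 := hQ (pl E ends R) (Z ∪ pl E ends R) subset_union_right (union_subset hZE pl_sub)
    omega
  · push Not at hall
    obtain ⟨v, hv, hlt⟩ := hall
    have hvi := hR.1 hv
    have hvR : ({v} : Set (ℕ × ℕ)) ⊆ R := by
      rintro _ rfl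
      exact hv
    have h1 := rk_pl hN hB hG hn (gd_single hvi)
    rw [Set.ncard_singleton] at h1
    have h2 := hsk (pl E ends {v}) (pl_mono hvR)
    have h3 := star_card hG hvi
    refine ⟨Z ∪ pl E ends {v}, ?_, ?_, ?_⟩
    · exact union_subset (hZ.trans (pl_mono subset_union_left))
        ((pl_mono hvR).trans (pl_mono subset_union_right))
    · have := Set.ncard_union_le Z (pl E ends {v})
      omega
    · omega

/-- `j` stars -/
lemma star_tiles [P.Finite] [L.Finite] [N.Finite]
    (hN : ∀ X ⊆ E, rk N X + rk P E = rk P (E \ X) + X.ncard) (hQ : Quo L N E)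
    (hB : Bic P E ends) (hG : GrdP E S ends w x y n) (hn : 3 ≤ n) {a b s u : ℕ} :
    ∀ j ≤ u, rect a b (j * (s + 1)) s ⊆ rect (x + 1) (y + 1) (n - 2) (n - 2) →
      (∀ i < j, rk N (pl E ends (rect (a + i * (s + 1)) b s s)) + u ≤
        rk L (pl E ends (rect (a + i * (s + 1)) b s s))) →
      ∃ Z : Set α, Z ⊆ pl E ends (rect a b (j * (s + 1) - 1) s) ∧
        Z.ncard ≤ 5 * j ∧ rk N Z + j ≤ rk L Z := by
  intro j
  induction j with
  | zero =>
    intro _ _ _
    have h0 : ∀ (M : Matroid α) [M.Finite], rk M (∅ : Set α) = 0 := by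
      intro M _
      have := rk_le_ncard M (X := (∅ : Set α)) Set.finite_empty
      simpa using this
    exact ⟨∅, empty_subset _, by simp, by rw [h0, h0]⟩
  | succ j ih =>
    intro hj hab hu
    have e2 : (j + 1) * (s + 1) = j * (s + 1) + s + 1 := by ring
    have h1 : rect a b (j * (s + 1)) s ⊆ rect a b ((j + 1) * (s + 1)) s :=
      rect_sub (le_refl _) (by omega) (le_refl _) (by omega)
    have h2 : rect (a + j * (s + 1)) b s s ⊆ rect a b ((j + 1) * (s + 1)) s :=
      rect_sub (by omega) (by omega) (le_refl _) (by omega)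
    obtain ⟨Z, hZ, hZc, hZd⟩ := ih (by omega) (h1.trans hab) (fun i hi => hu i (by omega))
    have hR : rect (a + j * (s + 1)) b s s ⊆ rect (x + 1) (y + 1) (n - 2) (n - 2) := h2.trans hab
    have hV : rect a b (j * (s + 1) - 1) s ⊆ rect (x + 1) (y + 1) (n - 2) (n - 2) :=
      (rect_sub (le_refl _) (by omega) (le_refl _) (by omega)).trans hab
    have hsub : rect a b (j * (s + 1) - 1) s ∪ rect (a + j * (s + 1)) b s s ⊆
        rect a b ((j + 1) * (s + 1) - 1) s :=
      union_subset (rect_sub (le_refl _) (by omega) (le_refl _) (by omega))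
        (rect_sub (by omega) (by omega) (le_refl _) (by omega))
    have hcase : Gd x y n (rect a b (j * (s + 1) - 1) s ∪ rect (a + j * (s + 1)) b s s) ∧
        Disjoint (rect a b (j * (s + 1) - 1) s) (rect (a + j * (s + 1)) b s s) ∧
        ∀ p ∈ rect a b (j * (s + 1) - 1) s, ∀ q ∈ rect (a + j * (s + 1)) b s s, ¬ adj p q := by
      rcases Nat.eq_zero_or_pos j with h0 | h0
      · have he : rect a b (j * (s + 1) - 1) s = ∅ := by
          rw [Set.eq_empty_iff_forall_notMem]
          rintro p ⟨g1, g2, _, _⟩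
          rw [h0] at g2
          omega
        rw [he, Set.empty_union]
        exact ⟨gd_rect hR, Set.empty_disjoint _, fun p hp => absurd hp (Set.notMem_empty _)⟩
      · have h5 : 1 ≤ j * (s + 1) := Nat.mul_pos h0 (by omega)
        have h6 := adj_sep (a := a) (b := b) (c := j * (s + 1) - 1) (d := s)
          (a' := a + j * (s + 1)) (b' := b) (c' := s) (d' := s) (by omega)
        exact ⟨gd_two hV hR (by omega), h6.1, h6.2⟩
    obtain ⟨Z', hZ', h6, h7⟩ := star_step hN hQ hB hG hn (rect_finite' _ _ _ _) (gd_rect hV)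
      (gd_rect hR) hcase.1 hcase.2.1 hcase.2.2 hZ (hu j (by omega)) (by omega) hZd hZc
    exact ⟨Z', hZ'.trans (pl_mono hsub), h6, h7⟩

end tiles

/-- **Lemma STAR**, from Lemma EXT. -/
theorem thmStar_of (k q t : ℕ) (ext : ∀ s : ℕ, ∃ m : ℕ, ExtStmt.{u} k s m) :
    ∃ n₀ : ℕ, ∀ n ≥ n₀, ∀ {α : Type u} (P : Matroid α) [P.Finite] (E S : Set α)
      (ends : α → Sym2 (ℕ × ℕ)) (w : ℕ × ℕ) (x y : ℕ), E ⊆ P.E → Bic P E ends →
      GrdP E S ends w x y n → rk P E + rk P (P.E \ E) ≤ rk P P.E + q →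
      HasUniformMinor P k ∨ ∃ Z ⊆ E, Z.ncard ≤ 5 * k ∧ ∃ a b,
        rect a b t t ⊆ rect (x + 1) (y + 1) (n - 2) (n - 2) ∧
        Disjoint Z (pl E ends (rect a b t t)) ∧
        ∀ X ⊆ pl E ends (rect a b t t),
          rk P✶ (X ∪ Z) + rk P E = rk P✶ Z + X.ncard + rk P (E \ X) := by
  classical
  choose mE hE using ext
  obtain ⟨Sc, hSc⟩ := stable (fun s => mE s + s + k * (s + 1) + t + 1)
  refine ⟨Sc q 1 + 3, ?_⟩
  intro n hn₀ α P _ E S ends w x y hEP hB hG hc
  have hn : 3 ≤ n := by omega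
  set N : Matroid α := P✶ ／ (P.E \ E) with hNd
  have fin1 : N.Finite := ⟨(P✶).ground_finite.subset ((P✶).contract_ground_subset_ground _)⟩
  have hN : ∀ X ⊆ E, rk N X + rk P E = rk P (E \ X) + X.ncard := fun X hX => rk_cob hEP hX
  have hQ : Quo P✶ N E := quo_cob hEP
  have hL : ∀ X ⊆ E, rk P✶ X + rk P P.E = rk P (P.E \ X) + X.ncard := fun X hX =>
    rk_dual (hX.trans hEP)
  have h0 : ∀ (M : Matroid α) [M.Finite], rk M (∅ : Set α) = 0 := by
    intro M _
    have := rk_le_ncard M (X := (∅ : Set α)) Set.finite_empty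
    simpa using this
  have hle : ∀ {X : Set α}, X ⊆ E → rk N X ≤ rk P✶ X := by
    intro X hX
    have h1 := hQ ∅ X (Set.empty_subset _) hX
    have h2 := h0 N
    have h3 := h0 P✶
    omega
  obtain ⟨⟨a, b, r⟩, hr, s, hs1, hF, hst⟩ := hSc
    (fun p q : ℕ × ℕ × ℕ => rect p.1 p.2.1 p.2.2 p.2.2 ⊆ rect q.1 q.2.1 q.2.2 q.2.2)
    (fun p => p.2.2)
    (fun p => rk P✶ (pl E ends (rect p.1 p.2.1 p.2.2 p.2.2)) -
      rk N (pl E ends (rect p.1 p.2.1 p.2.2 p.2.2)))
    (fun _ => subset_refl _) (fun _ _ _ h1 h2 => h1.trans h2)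
    (by
      intro p q hpq
      have h1 := hQ _ _ (pl_mono (E := E) (ends := ends) hpq) pl_sub
      omega)
    q 1 (x + 1, y + 1, n - 2) (by
      simp only
      have h1 := hQ (pl E ends (rect (x + 1) (y + 1) (n - 2) (n - 2))) E pl_sub (subset_refl _)
      have h2 := hN E (subset_refl _)
      have h3 := hL E (subset_refl _)
      have h4 := h0 P
      rw [sdiff_self, h4] at h2
      omega) (by simp only; omega)
  simp only at hr hF hst
  set u := rk P✶ (pl E ends (rect a b r r)) - rk N (pl E ends (rect a b r r)) with hu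
  -- all sub-squares of side at least `s` have defect exactly `u`
  have key : ∀ a' b' r', rect a' b' r' r' ⊆ rect a b r r → s ≤ r' →
      rk P✶ (pl E ends (rect a' b' r' r')) = rk N (pl E ends (rect a' b' r' r')) + u := by
    intro a' b' r' h1 h2
    have h3 := hst (a', b', r') h1 h2
    simp only at h3
    have h4 := hle (pl_sub (E := E) (ends := ends) (U := rect a' b' r' r'))
    omega
  have hub := key a b r (subset_refl _) (by omega)
  by_cases huk : k ≤ u
  · left
    have hms : rect a b (mE s) (mE s) ⊆ rect a b r r := rect_sub (le_refl _) (by omega)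
      (le_refl _) (by omega)
    refine hE s P E S ends w x y n a b u hEP hB hG (hms.trans hr) huk ?_
    intro a' b' c' hc' hrc
    have h1 := key a' b' c' (hrc.trans hms) hc'
    have h2 := hN _ (pl_sub (E := E) (ends := ends) (U := rect a' b' c' c'))
    have h3 := hL _ (pl_sub (E := E) (ends := ends) (U := rect a' b' c' c'))
    omega
  · right
    push Not at huk
    have hus : u * (s + 1) ≤ k * (s + 1) := Nat.mul_le_mul_right (s + 1) huk.le
    have hZr : rect a b (u * (s + 1)) s ⊆ rect a b r r := rect_sub (le_refl _) (by omega)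
      (le_refl _) (by omega)
    have hVr : rect a b (u * (s + 1) - 1) s ⊆ rect a b r r := rect_sub (le_refl _) (by omega)
      (le_refl _) (by omega)
    have hWr : rect (a + u * (s + 1)) b t t ⊆ rect a b r r := rect_sub (by omega) (by omega)
      (le_refl _) (by omega)
    obtain ⟨Z, hZ, hZc, hZd⟩ := star_tiles (a := a) (b := b) (s := s) (u := u) hN hQ hB hG hn u
      (le_refl _) (hZr.trans hr) (by
        intro i hi
        have h1 : i * (s + 1) + (s + 1) ≤ u * (s + 1) := by
          calc i * (s + 1) + (s + 1) = (i + 1) * (s + 1) := by ring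
            _ ≤ u * (s + 1) := Nat.mul_le_mul_right _ hi
        have h2 := key (a + i * (s + 1)) b s (rect_sub (by omega) (by omega) (le_refl _)
          (by omega)) (le_refl _)
        omega)
    have hZE : Z ⊆ E := hZ.trans pl_sub
    -- `Z` is separated from the square
    have hsep : Disjoint Z (pl E ends (rect (a + u * (s + 1)) b t t)) ∧
        ∀ X ⊆ pl E ends (rect (a + u * (s + 1)) b t t), rk N (Z ∪ X) = rk N Z + rk N X := by
      rcases Nat.eq_zero_or_pos u with h | h
      · have hZ0 : Z = ∅ := by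
          have : Z.ncard = 0 := by omega
          exact (Set.ncard_eq_zero ((P.ground_finite.subset hEP).subset hZE)).1 this
        rw [hZ0]
        refine ⟨Set.empty_disjoint _, fun X _ => ?_⟩
        rw [Set.empty_union, h0, zero_add]
      · have h5 : 1 ≤ u * (s + 1) := Nat.mul_pos h (by omega)
        have h6 := adj_sep (a := a) (b := b) (c := u * (s + 1) - 1) (d := s)
          (a' := a + u * (s + 1)) (b' := b) (c' := t) (d' := t) (by omega)
        have hin : ∀ {W : Set (ℕ × ℕ)}, W ⊆ rect (x + 1) (y + 1) (n - 2) (n - 2) →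
            W ⊆ rect x y n n := fun hW => hW.trans (rect_sub (by omega) (by omega) (by omega)
              (by omega))
        refine ⟨(pl_disj (ends := ends) hG (hin (hVr.trans hr)) (hin (hWr.trans hr)) h6.1
          h6.2).mono_left hZ, fun X hX => ?_⟩
        exact skew_pl hN hB hG hn (gd_rect (hVr.trans hr)) (gd_rect (hWr.trans hr))
          (gd_two (hVr.trans hr) (hWr.trans hr) (by omega)) h6.1 h6.2 hZ hX
    refine ⟨Z, hZE, by omega, a + u * (s + 1), b, hWr.trans hr, hsep.1, ?_⟩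
    intro X hX
    have hXE : X ⊆ E := hX.trans pl_sub
    have h1 := hsep.2 X hX
    have h2 := hQ Z (Z ∪ X) subset_union_left (union_subset hZE hXE)
    have h3 := hQ (Z ∪ X) (pl E ends (rect a b r r))
      (union_subset (hZ.trans (pl_mono hVr)) (hX.trans (pl_mono hWr))) pl_sub
    have h4 := hN X hXE
    rw [union_comm X Z]
    omega

/-- **Lemma STAR**, from Lemma EXT, with the defect written in the dual. -/
theorem thmStar_of' (k : ℕ) (ext : ∀ s : ℕ, ∃ m : ℕ, ExtStmt.{u} k s m) :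
    ∀ q t : ℕ, ∃ n₀ : ℕ, ∀ n ≥ n₀, ∀ {α : Type u} (P : Matroid α) [P.Finite] (E S : Set α)
      (ends : α → Sym2 (ℕ × ℕ)) (w : ℕ × ℕ) (x y : ℕ), E ⊆ P.E → Bic P E ends →
      GrdP E S ends w x y n → rk P✶ E + rk P E ≤ E.ncard + q →
      HasUniformMinor P k ∨ ∃ Z ⊆ E, Z.ncard ≤ 5 * k ∧ ∃ a b : ℕ,
        rect a b t t ⊆ rect (x + 1) (y + 1) (n - 2) (n - 2) ∧
        Disjoint Z (pl E ends (rect a b t t)) ∧ ∀ X ⊆ pl E ends (rect a b t t),
          rk P✶ (X ∪ Z) + rk P E = rk P✶ Z + X.ncard + rk P (E \ X) := by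
  intro q t
  obtain ⟨n₀, h⟩ := thmStar_of.{u} k q t ext
  refine ⟨n₀, ?_⟩
  intro n hn α P _ E S ends w x y hEP hB hG hc
  refine h n hn P E S ends w x y hEP hB hG ?_
  have h1 := rk_dual hEP
  omega

end BICS
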