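import Pool.Agent.Helper21.STAR.Star

/-!
Lemma EXT, first part: contract the outside of the square and a basis of the new directions.
(Problem MP_5165fa_co.)
-/

open Set BIC
open scoped Matroid

namespace BICS

universe u

/-- Lemma EXT in normal form: `k` more elements in the span of a plain grid, independent over the
complement of every large square. -/
def ExtZero (k s m : ℕ) : Prop :=
  ∀ {α : Type u} (L : Matroid α) [L.Finite] (W I : Set α) (ends : α → Sym2 (ℕ × ℕ)) (x y : ℕ),
    L.E = W ∪ I → Disjoint W I → I.ncard = k → L.Indep I → Bic L W ends →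
    Grd W ends x y m m → rk L L.E = rk L W →
    (∀ a b c, s ≤ c → rect a b c c ⊆ rect x y m m →
      rk L (W \ pl W ends (rect a b c c)) + k ≤ rk L ((W \ pl W ends (rect a b c c)) ∪ I)) →
    HasUniformMinor L k

/-- `D₀` a basis of the rest over `E`: rank and skewness -/
lemma exists_top {α : Type*} {P : Matroid α} [P.Finite] {E : Set α} (hE : E ⊆ P.E) :
    ∃ D₀ ⊆ P.E \ E, rk P (E ∪ D₀) = rk P P.E ∧
      ∀ X ⊆ E, rk P (X ∪ D₀) = rk P X + (rk P P.E - rk P E) := by
  obtain ⟨I, hI⟩ := P.exists_isBasis E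
  obtain ⟨B, hB, hIB⟩ := hI.indep.exists_isBase_superset
  have hBE : B ∩ E = I := by
    have h1 : P.Indep (B ∩ E) := hB.indep.subset inter_subset_left
    exact (hI.eq_of_subset_indep h1 (subset_inter hIB hI.subset) inter_subset_right).symm
  have hBf : B.Finite := P.ground_finite.subset hB.subset_ground
  have e1 : rk P E = I.ncard := by
    unfold BIC.rk
    rw [← hI.encard_eq_eRk]; rfl
  have e2 : rk P P.E = B.ncard := rk_superset_base hB hB.subset_ground
  have e3 := Set.ncard_inter_add_ncard_sdiff_eq_ncard B E hBf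
  rw [hBE] at e3
  have hD : (B \ E).Finite := hBf.subset sdiff_subset
  have e4 : rk P (E ∪ (B \ E)) = rk P P.E := by
    apply le_antisymm (rk_mono P (union_subset hE (sdiff_subset.trans hB.subset_ground)))
    rw [e2, ← rk_indep hB.indep]
    refine rk_mono P ?_
    intro e he
    by_cases h : e ∈ E
    · exact Or.inl h
    · exact Or.inr ⟨he, h⟩
  refine ⟨B \ E, fun e he => ⟨hB.subset_ground he.1, he.2⟩, e4, ?_⟩
  intro X hX
  apply le_antisymm
  · have := rk_union_le P (X := X) hD
    omega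
  · have h1 := rk_submod P (X ∪ (B \ E)) E
    have h2 : rk P X ≤ rk P ((X ∪ (B \ E)) ∩ E) := rk_mono P (fun e he => ⟨Or.inl he, hX he⟩)
    have h3 : rk P (E ∪ (B \ E)) ≤ rk P ((X ∪ (B \ E)) ∪ E) := rk_mono P (by
      rintro e (he | he)
      · exact Or.inr he
      · exact Or.inl (Or.inr he))
    omega

theorem extStmt_of (k s m : ℕ) (hm : 2 ≤ m) (hs : s ≤ m) (h0 : ExtZero.{u} k s m) :
    ExtStmt.{u} k s m := by
  classical
  intro α P _ E S ends w x y n a₀ b₀ u hEP hB hG hτ hku hdef
  set τ := rect a₀ b₀ m m with hτd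
  set T := pl E ends τ with hT
  set C := E \ T with hC
  set D := P.E \ E with hD
  set W := ins E ends τ with hW
  have hTE : T ⊆ E := pl_sub
  have hCE : C ⊆ E := sdiff_subset
  have hWT : W ⊆ T := by
    rintro e ⟨he, he'⟩
    obtain ⟨v, hv⟩ := exists_mem_ends ends e
    exact ⟨he, v, he' v hv, hv⟩
  have hPf := P.ground_finite
  obtain ⟨D₀, hD₀, hD₀E, hsk⟩ := exists_top hEP
  have hmonoE : rk P E ≤ rk P P.E := rk_mono P hEP
  -- vertices of the square and of `C`
  have hm3 : 3 ≤ n := by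
    have h1 := (rect_sub_iff (show 0 < m by omega) (show 0 < m by omega)).1 hτ
    omega
  have hτin : τ ⊆ rect x y n n := hτ.trans (rect_sub (by omega) (by omega) (by omega) (by omega))
  -- `W` is a plain grid
  have hWS : W = ins S ends τ := by
    ext e
    constructor
    · rintro ⟨he, he'⟩
      refine ⟨?_, he'⟩
      by_contra heS
      obtain ⟨v, _, hv⟩ := hG.star e ⟨he, heS⟩
      exact hG.out (hτin (he' w (by rw [hv]; exact Sym2.mem_mk_right _ _)))
    · rintro ⟨he, he'⟩
      exact ⟨hG.sub he, he'⟩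
  have hGW : Grd W ends a₀ b₀ m m := by
    rw [hWS]
    exact Grd_sub hG.grd hτin
  have hBW : Bic P W ends := Bic_sub hB (fun e he => he.1)
  have hWrk : rk P W = m * m := rk_rect hBW hGW hm hm
  have hCins : C ⊆ ins E ends (τᶜ) := by
    rintro e ⟨he, he'⟩
    exact ⟨he, fun v hv hvτ => he' ⟨he, v, hvτ, hv⟩⟩
  have hWC : ∀ X ⊆ W, rk P (X ∪ C) = rk P X + rk P C := fun X hX =>
    rk_skew hB (disjoint_compl_right (a := τ)) hX hCins
  have hCrk : rk P C + m * m = rk P E := by
    have h1 := plus_rank hB hG hm3 hτ (gd_rect hτ).2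
    rw [hτd, rect_ncard] at h1
    exact h1
  -- the contraction
  set Q := C ∪ D₀ with hQ
  have hQE : Q ⊆ P.E := union_subset (hCE.trans hEP) (hD₀.trans sdiff_subset)
  have hQrk : rk P Q = rk P C + (rk P P.E - rk P E) := hsk C hCE
  -- the directions
  have hdτ := hdef a₀ b₀ m hs (subset_refl _)
  have hTD : P.E \ T = C ∪ D := by
    ext e
    simp only [hC, hD, mem_sdiff, mem_union]
    constructor
    · rintro ⟨h1, h2⟩
      by_cases h3 : e ∈ E
      · exact Or.inl ⟨h3, h2⟩
      · exact Or.inr ⟨h1, h3⟩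
    · rintro (⟨h1, h2⟩ | ⟨h1, h2⟩)
      · exact ⟨hEP h1, h2⟩
      · exact ⟨h1, fun h => h2 (hTE h)⟩
  rw [← hτd, ← hT, ← hC, hTD] at hdτ
  have hfinQ : (P ／ Q).Finite := ⟨hPf.subset (P.contract_ground_subset_ground Q)⟩
  -- ranks in the contraction
  have hr : ∀ X ⊆ P.E \ Q, rk (P ／ Q) X + rk P Q = rk P (X ∪ Q) := fun X hX =>
    rk_contract_set hQE hX
  have hDQ : D \ D₀ ⊆ P.E \ Q := by
    rintro e ⟨he, he'⟩
    exact ⟨he.1, fun h => h.elim (fun h1 => he.2 (hCE h1)) he'⟩
  have hTQ : T ⊆ P.E \ Q := by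
    intro e he
    exact ⟨hEP (hTE he), fun h => h.elim (fun h1 => h1.2 he) (fun h1 => (hD₀ h1).2 (hTE he))⟩
  have hDrk : rk (P ／ Q) (D \ D₀) = u := by
    have h1 := hr _ hDQ
    have h2 : (D \ D₀) ∪ Q = C ∪ D := by
      ext e
      simp only [hQ, mem_union, mem_sdiff]
      constructor
      · rintro (⟨h1, _⟩ | h1 | h1)
        · exact Or.inr h1
        · exact Or.inl h1
        · exact Or.inr (hD₀ h1)
      · rintro (h1 | h1)
        · exact Or.inr (Or.inl h1)
        · by_cases h2 : e ∈ D₀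
          · exact Or.inr (Or.inr h2)
          · exact Or.inl ⟨h1, h2⟩
    rw [h2] at h1
    omega
  obtain ⟨J, hJ, hJi, hJc⟩ := exists_basis_rk (N := P ／ Q) (D \ D₀) (by
    rw [Matroid.contract_ground]; exact hDQ)
  rw [hDrk] at hJc
  have hJf : J.Finite := hPf.subset (hJ.trans (hDQ.trans sdiff_subset))
  obtain ⟨I, hIJ, hIc⟩ := Set.exists_subset_card_eq (s := J) (n := k) (by omega)
  have hII : (P ／ Q).Indep I := hJi.subset hIJ
  have hID : I ⊆ D \ D₀ := hIJ.trans hJ
  have hIQ : I ⊆ P.E \ Q := hID.trans hDQ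
  have hWQ : W ⊆ P.E \ Q := hWT.trans hTQ
  have hWI : Disjoint W I := by
    rw [Set.disjoint_left]
    intro e he he'
    exact (hID he').1.2 (hTE (hWT he))
  -- the final matroid
  set L := (P ／ Q) ↾ (W ∪ I) with hL
  have hsubG : W ∪ I ⊆ (P ／ Q).E := by
    rw [Matroid.contract_ground]
    exact union_subset hWQ hIQ
  have hLfin : L.Finite := ⟨by
    rw [hL, Matroid.restrict_ground_eq]
    exact hPf.subset ((union_subset hWQ hIQ).trans sdiff_subset)⟩
  have hLrk : ∀ X ⊆ W ∪ I, rk L X = rk (P ／ Q) X := by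
    intro X hX
    unfold BIC.rk
    rw [hL, Matroid.restrict_eRk_eq _ hX]
  have hLm : L ≤m P := by
    have h1 : L ≤r (P ／ Q) := Matroid.restrict_isRestriction _ _ hsubG
    obtain ⟨D', _, hD'⟩ := h1.exists_eq_delete
    rw [hD']
    exact Matroid.contract_delete_isMinor P Q D'
  have hrW : ∀ X ⊆ W, rk (P ／ Q) X = rk P X := by
    intro X hX
    have h1 := hr X (hX.trans hWQ)
    have h2 : X ∪ Q = (X ∪ C) ∪ D₀ := by rw [hQ, union_assoc]
    rw [h2, hsk (X ∪ C) (union_subset (hX.trans (hWT.trans hTE)) hCE), hWC X hX] at h1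
    omega
  have hLW : ∀ X ⊆ W, rk L X = rk P X := fun X hX => by
    rw [hLrk X (hX.trans subset_union_left), hrW X hX]
  obtain ⟨N, hN1, hN2⟩ := h0 L W I ends a₀ b₀ (by rw [hL, Matroid.restrict_ground_eq]) hWI hIc
    (by rw [hL, Matroid.restrict_indep_iff]; exact ⟨hII, subset_union_right⟩)
    (Bic_of_rk (N := P) hBW (by rw [hL, Matroid.restrict_ground_eq]; exact subset_union_left) hLW)
    hGW
    (by
      have h1 : L.E = W ∪ I := by rw [hL, Matroid.restrict_ground_eq]
      rw [h1]
      apply le_antisymm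
      · rw [hLW W (subset_refl _), hWrk, hLrk _ (subset_refl _)]
        have h2 := hr (W ∪ I) (union_subset hWQ hIQ)
        have h3 : rk P (W ∪ I ∪ Q) ≤ rk P P.E :=
          rk_mono P (union_subset ((union_subset hWQ hIQ).trans sdiff_subset) hQE)
        omega
      · exact rk_mono L subset_union_left)
    (by
      intro a b c hc hrc
      set R := rect a b c c with hR
      have hplW : W \ pl W ends R ⊆ T \ pl E ends R := by
        rintro e ⟨he, he'⟩
        exact ⟨hWT he, fun h => he' ⟨he, h.2⟩⟩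
      have hsubW : W \ pl W ends R ⊆ W := sdiff_subset
      rw [hLrk _ (hsubW.trans subset_union_left),
        hLrk _ (union_subset (hsubW.trans subset_union_left) subset_union_right)]
      -- `T` minus the plus set is skew to the directions
      have hA : T \ pl E ends R ⊆ P.E \ Q := sdiff_subset.trans hTQ
      have h1 := hr _ hA
      have h2 := hr _ (union_subset hA hDQ)
      have h3 : (T \ pl E ends R) ∪ Q = (E \ pl E ends R) ∪ D₀ := by
        ext e
        simp only [hQ, hC, mem_union, mem_sdiff]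
        constructor
        · rintro (⟨h4, h5⟩ | ⟨h4, h5⟩ | h4)
          · exact Or.inl ⟨hTE h4, h5⟩
          · exact Or.inl ⟨h4, fun h6 => h5 (pl_mono hrc h6)⟩
          · exact Or.inr h4
        · rintro (⟨h4, h5⟩ | h4)
          · by_cases h6 : e ∈ T
            · exact Or.inl ⟨h6, h5⟩
            · exact Or.inr (Or.inl ⟨h4, h6⟩)
          · exact Or.inr (Or.inr h4)
      have h4 : (T \ pl E ends R) ∪ (D \ D₀) ∪ Q = P.E \ pl E ends R := by
        ext e
        simp only [hQ, hC, hD, mem_union, mem_sdiff]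
        constructor
        · rintro ((⟨h5, h6⟩ | ⟨⟨h5, h6⟩, _⟩) | ⟨h5, h6⟩ | h5)
          · exact ⟨hEP (hTE h5), h6⟩
          · exact ⟨h5, fun h7 => h6 (pl_sub h7)⟩
          · exact ⟨hEP h5, fun h7 => h6 (pl_mono hrc h7)⟩
          · exact ⟨(hD₀ h5).1, fun h7 => (hD₀ h5).2 (pl_sub h7)⟩
        · rintro ⟨h5, h6⟩
          by_cases h7 : e ∈ E
          · by_cases h8 : e ∈ T
            · exact Or.inl (Or.inl ⟨h8, h6⟩)
            · exact Or.inr (Or.inl ⟨h7, h8⟩)
          · by_cases h8 : e ∈ D₀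
            · exact Or.inr (Or.inr h8)
            · exact Or.inl (Or.inr ⟨⟨h5, h7⟩, h8⟩)
      rw [h3, hsk (E \ pl E ends R) sdiff_subset] at h1
      rw [h4] at h2
      have h5 := hdef a b c hc hrc
      rw [← hR] at h5
      have h6 := skew_sub (N := P ／ Q) (A := T \ pl E ends R) (B := D \ D₀)
        (X := W \ pl W ends R) (Y := I) (by rw [hDrk]; omega) hplW hID
      rw [rk_indep hII, hIc] at h6
      exact h6)
  exact ⟨N, hN1.trans hLm, hN2⟩

end BICS
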