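import Pool.Agent.Helper34.EXT.Ext
import Pool.Agent.Helper53.BQ.Wco

/-!
Lemma STAR and Theorem W-co without hypotheses. (Problem MP_5165fa_co.)
-/

open Set BIC
open scoped Matroid

namespace BICS

universe u

/-- Lemma STAR. -/
theorem thmStar (k : ℕ) (hk : 1 ≤ k) : StarStmt.{u} k := thmStar_of' k (thmExt k hk)

/-- Theorem W-co. -/
theorem thmWco (k : ℕ) (hk : 1 ≤ k) : WcoPlain.{u} k := thmWco_of hk (thmStar k hk)

end BICS
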