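import Pool.Agent.BICS.RkRect

/-!
Vertex stars of the grid with or without an apex: the rank of the complement of all edges touching
a set of inner vertices. (Problem MP_5165fa_co.)
-/

open Set BIC
open scoped Matroid

namespace BICS

universe u

/-- `E` carries the edges of the plain `n × n` grid (on `S`) and, if `E ≠ S`, of the star joining
the apex `w` to all its vertices. -/
structure GrdP {α : Type*} (E S : Set α) (ends : α → Sym2 (ℕ × ℕ)) (w : ℕ × ℕ) (x y n : ℕ) :
    Prop where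
  sub : S ⊆ E
  grd : Grd S ends x y n n
  inj : InjOn ends E
  out : w ∉ rect x y n n
  star : ∀ e ∈ E \ S, ∃ v ∈ rect x y n n, ends e = s(v, w)
  all : E = S ∨ ∀ v ∈ rect x y n n, ∃ e ∈ E, ends e = s(v, w)

/-- All edges touching a set of vertices. -/
def pl {α : Type*} (E : Set α) (ends : α → Sym2 (ℕ × ℕ)) (U : Set (ℕ × ℕ)) : Set α :=
  {e | e ∈ E ∧ ∃ v ∈ U, v ∈ ends e}

section plus

variable {α : Type*} {P : Matroid α} {E S : Set α} {ends : α → Sym2 (ℕ × ℕ)} {w : ℕ × ℕ}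
  {x y n : ℕ}

lemma mem_rct2 {x y a b : ℕ} {p : ℕ × ℕ} :
    p ∈ rect x y a b ↔ x ≤ p.1 ∧ p.1 < x + a ∧ y ≤ p.2 ∧ p.2 < y + b := Iff.rfl

lemma pl_sub {U : Set (ℕ × ℕ)} : pl E ends U ⊆ E := fun _ he => he.1

lemma pl_mono {U U' : Set (ℕ × ℕ)} (h : U ⊆ U') : pl E ends U ⊆ pl E ends U' := by
  rintro e ⟨he, v, hv, hv'⟩
  exact ⟨he, v, h hv, hv'⟩

lemma pl_union {U U' : Set (ℕ × ℕ)} : pl E ends (U ∪ U') = pl E ends U ∪ pl E ends U' := by
  ext e
  constructor
  · rintro ⟨he, v, hv | hv, hv'⟩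
    · exact Or.inl ⟨he, v, hv, hv'⟩
    · exact Or.inr ⟨he, v, hv, hv'⟩
  · rintro (⟨he, v, hv, hv'⟩ | ⟨he, v, hv, hv'⟩)
    · exact ⟨he, v, Or.inl hv, hv'⟩
    · exact ⟨he, v, Or.inr hv, hv'⟩

lemma pl_empty : pl E ends (∅ : Set (ℕ × ℕ)) = ∅ := by
  ext e
  simp [pl]

open Classical in
/-- The next vertex: around the boundary, to the right inside, upwards to the left of `U`. -/
noncomputable def nxt (x y n : ℕ) (U : Set (ℕ × ℕ)) (v : ℕ × ℕ) : ℕ × ℕ :=
  if v.2 = y ∧ v.1 + 1 < x + n then (v.1 + 1, v.2)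
  else if v.1 + 1 = x + n ∧ v.2 + 1 < y + n then (v.1, v.2 + 1)
  else if v.2 + 1 = y + n ∧ x < v.1 then (v.1 - 1, v.2)
  else if v.1 = x then (v.1, v.2 - 1)
  else if (v.1 + 1, v.2) ∈ U then (v.1, v.2 + 1) else (v.1 + 1, v.2)

lemma nxt_adj {U : Set (ℕ × ℕ)} (hn : 3 ≤ n) {v : ℕ × ℕ} (hv : v ∈ rect x y n n) :
    adj v (nxt x y n U v) ∧ nxt x y n U v ∈ rect x y n n := by
  obtain ⟨i, j⟩ := v
  obtain ⟨h1, h2, h3, h4⟩ := hv
  simp only at h1 h2 h3 h4
  simp only [nxt, adj, mem_rct2]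
  split_ifs <;> simp only [true_and, true_or, or_true, and_true] <;> omega

lemma nxt_notMem {U : Set (ℕ × ℕ)} (hn : 3 ≤ n) (hU : U ⊆ rect (x + 1) (y + 1) (n - 2) (n - 2))
    (hg : ∀ a b, (a, b) ∉ U → (a + 1, b) ∈ U → (a, b + 1) ∉ U) {v : ℕ × ℕ}
    (hv : v ∈ rect x y n n) (hvU : v ∉ U) : nxt x y n U v ∉ U := by
  obtain ⟨i, j⟩ := v
  obtain ⟨h1, h2, h3, h4⟩ := hv
  simp only at h1 h2 h3 h4
  intro h
  have h5 := hU h
  simp only [nxt] at h h5
  split_ifs at h h5 with c1 c2 c3 c4 c5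
  · obtain ⟨g1, g2, g3, g4⟩ := h5
    simp only at g1 g2 g3 g4
    omega
  · obtain ⟨g1, g2, g3, g4⟩ := h5
    simp only at g1 g2 g3 g4
    omega
  · obtain ⟨g1, g2, g3, g4⟩ := h5
    simp only at g1 g2 g3 g4
    omega
  · obtain ⟨g1, g2, g3, g4⟩ := h5
    simp only at g1 g2 g3 g4
    omega
  · exact hg i j hvU c5 h
  · exact c5 h

lemma nxt_inj {U : Set (ℕ × ℕ)} (hn : 3 ≤ n) {v v' : ℕ × ℕ} (hv : v ∈ rect x y n n)
    (hv' : v' ∈ rect x y n n) (h : s(v, nxt x y n U v) = s(v', nxt x y n U v')) : v = v' := by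
  rw [Sym2.eq_iff] at h
  rcases h with ⟨h, _⟩ | ⟨h, h'⟩
  · exact h
  · exfalso
    obtain ⟨i, j⟩ := v
    obtain ⟨i', j'⟩ := v'
    obtain ⟨h1, h2, h3, h4⟩ := hv
    obtain ⟨g1, g2, g3, g4⟩ := hv'
    simp only at h1 h2 h3 h4 g1 g2 g3 g4
    simp only [nxt] at h h'
    split_ifs at h h' <;> simp only [Prod.mk.injEq] at h h' <;> omega

lemma rect_eq_image (x y n : ℕ) : rect x y n n = ((((Finset.range n) ×ˢ (Finset.range n)).image
    (fun p => ((x + p.1, y + p.2) : ℕ × ℕ)) : Finset (ℕ × ℕ)) : Set (ℕ × ℕ)) := by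
  ext ⟨p, q⟩
  rw [Finset.mem_coe, Finset.mem_image, mem_rct2]
  constructor
  · rintro ⟨h1, h2, h3, h4⟩
    simp only at h1 h2 h3 h4
    refine ⟨(p - x, q - y), ?_, ?_⟩
    · rw [Finset.mem_product, Finset.mem_range, Finset.mem_range]
      exact ⟨by simp only; omega, by simp only; omega⟩
    · simp only [Prod.mk.injEq]
      omega
  · rintro ⟨⟨i, j⟩, h, h'⟩
    rw [Finset.mem_product, Finset.mem_range, Finset.mem_range] at h
    simp only [Prod.mk.injEq] at h h'
    simp only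
    omega

lemma rect_finite (x y n : ℕ) : (rect x y n n).Finite := by
  rw [rect_eq_image]
  exact Finset.finite_toSet _

lemma rect_ncard (x y n : ℕ) : (rect x y n n).ncard = n * n := by
  rw [rect_eq_image, Set.ncard_coe_finset, Finset.card_image_of_injective, Finset.card_product,
    Finset.card_range]
  rintro ⟨a, b⟩ ⟨c, d⟩ h
  simp only [Prod.mk.injEq] at h ⊢
  omega

/-- The rank of the edges that touch no vertex of `U`. -/
theorem plus_rank_aux [P.Finite] (hB : Bic P E ends) (hG : GrdP E S ends w x y n) (hn : 3 ≤ n)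
    {U : Set (ℕ × ℕ)} (hU : U ⊆ rect (x + 1) (y + 1) (n - 2) (n - 2))
    (hg : ∀ a b, (a, b) ∉ U → (a + 1, b) ∈ U → (a, b + 1) ∉ U) (c : Set (ℕ × ℕ))
    (hc : (E = S ∧ c = ∅) ∨ (E ≠ S ∧ c = {w})) :
    rk P (E \ pl E ends U) + U.ncard = (rect x y n n ∪ c).ncard := by
  classical
  have hUr : U ⊆ rect x y n n := by
    refine hU.trans ?_
    rintro p ⟨h1, h2, h3, h4⟩
    exact ⟨by omega, by omega, by omega, by omega⟩
  have hcf : c.Finite := by
    rcases hc with ⟨_, h⟩ | ⟨_, h⟩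
    · rw [h]; exact Set.finite_empty
    · rw [h]; exact Set.finite_singleton _
  have hcr : Disjoint (rect x y n n) c := by
    rcases hc with ⟨_, h⟩ | ⟨_, h⟩
    · rw [h]; exact Set.disjoint_empty _
    · rw [h, Set.disjoint_singleton_right]; exact hG.out
  have hVf : (rect x y n n ∪ c).Finite := (rect_finite x y n).union hcf
  have hcw : w ∈ c ↔ E ≠ S := by
    rcases hc with ⟨h1, h⟩ | ⟨h1, h⟩
    · rw [h]; simp [h1]
    · rw [h]; simp [h1]
  have hsplit := Set.ncard_sdiff_add_ncard_of_subset (hUr.trans (subset_union_left (t := c))) hVf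
  -- all ends lie in the vertex set
  have hends : ∀ e ∈ E, ∀ v ∈ ends e, v ∈ rect x y n n ∪ c := by
    intro e he v hv
    by_cases heS : e ∈ S
    · obtain ⟨p, q, h1, _, h3, h4⟩ := hG.grd.mem e heS
      rw [h1] at hv
      rcases Sym2.mem_iff.1 hv with rfl | rfl
      · exact Or.inl h3
      · exact Or.inl h4
    · obtain ⟨p, hp, h1⟩ := hG.star e ⟨he, heS⟩
      rw [h1] at hv
      rcases Sym2.mem_iff.1 hv with rfl | rfl
      · exact Or.inl hp
      · refine Or.inr (hcw.2 ?_)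
        rintro h
        exact heS (h ▸ he)
  apply le_antisymm
  · have h1 : E \ pl E ends U ⊆ ins E ends ((rect x y n n ∪ c) \ U) := by
      rintro e ⟨he, he'⟩
      exact ⟨he, fun v hv => ⟨hends e he v hv, fun hvU => he' ⟨he, v, hvU, hv⟩⟩⟩
    have h2 := (P.eRk_mono h1).trans (hB.rk _)
    rw [← cast_rk, ← (hVf.subset sdiff_subset).cast_ncard_eq] at h2
    have h3 : rk P (E \ pl E ends U) ≤ ((rect x y n n ∪ c) \ U).ncard := by exact_mod_cast h2
    omega
  · -- the matching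
    have H : ∀ v ∈ (rect x y n n ∪ c) \ U, ∃ e, e ∈ E \ pl E ends U ∧
        ((v ∈ rect x y n n ∧ ends e = s(v, nxt x y n U v)) ∨
          (v = w ∧ ends e = s((x, y), w))) := by
      rintro v ⟨hv | hv, hvU⟩
      · obtain ⟨h1, h2⟩ := nxt_adj (U := U) hn hv
        obtain ⟨e, he, he'⟩ := hG.grd.surj _ _ h1 hv h2
        refine ⟨e, ⟨hG.sub he, ?_⟩, Or.inl ⟨hv, he'⟩⟩
        rintro ⟨_, z, hz, hz'⟩
        rw [he'] at hz'
        rcases Sym2.mem_iff.1 hz' with rfl | rfl
        · exact hvU hz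
        · exact nxt_notMem hn hU hg hv hvU hz
      · rcases hc with ⟨h1, h⟩ | ⟨h1, h⟩
        · rw [h] at hv; exact absurd hv (Set.notMem_empty _)
        · rw [h, Set.mem_singleton_iff] at hv
          rcases hG.all with h2 | h2
          · exact absurd h2 h1
          · obtain ⟨e, he, he'⟩ := h2 (x, y) ⟨by simp only; omega, by simp only; omega,
              by simp only; omega, by simp only; omega⟩
            refine ⟨e, ⟨he, ?_⟩, Or.inr ⟨hv, he'⟩⟩
            rintro ⟨_, z, hz, hz'⟩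
            rw [he'] at hz'
            rcases Sym2.mem_iff.1 hz' with rfl | rfl
            · have := (hU hz).1
              simp only at this
              omega
            · exact hG.out (hUr hz)
    have hne : Nonempty α := by
      have h0 : ((x, y) : ℕ × ℕ) ∈ (rect x y n n ∪ c) \ U := by
        refine ⟨Or.inl ⟨by simp only; omega, by simp only; omega, by simp only; omega,
          by simp only; omega⟩, fun h => ?_⟩
        have := (hU h).1
        simp only at this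
        omega
      exact ⟨(H _ h0).choose⟩
    choose! g hg' using H
    set F : Finset (ℕ × ℕ) := (hVf.subset (sdiff_subset (t := U))).toFinset with hF
    have hFm : ∀ v, v ∈ F ↔ v ∈ (rect x y n n ∪ c) \ U := by
      intro v
      rw [hF, Set.Finite.mem_toFinset]
    have hFc : F.card = ((rect x y n n ∪ c) \ U).ncard := by
      rw [hF, Set.ncard_eq_toFinset_card _ (hVf.subset sdiff_subset)]
    have key : F.card ≤ rk P (E \ pl E ends U) := by
      refine rk_ge_card hB (sdiff_subset : E \ pl E ends U ⊆ E) (p := fun v => v) ?_ (g := g) ?_ ?_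
      · intro a _ b _ h
        exact h
      · intro a ha b hb hab
        rw [Finset.mem_coe, hFm] at ha hb
        obtain ⟨_, h1⟩ := hg' a ha
        obtain ⟨_, h2⟩ := hg' b hb
        rw [hab] at h1
        rcases h1 with ⟨h3, h4⟩ | ⟨h3, h4⟩ <;> rcases h2 with ⟨h5, h6⟩ | ⟨h5, h6⟩
        · exact nxt_inj hn h3 h5 (h4.symm.trans h6)
        · exfalso
          have h7 := h4.symm.trans h6
          have h8 : w ∈ s(a, nxt x y n U a) := by rw [h7]; exact Sym2.mem_mk_right _ _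
          rcases Sym2.mem_iff.1 h8 with h9 | h9
          · exact hG.out (h9 ▸ h3)
          · exact hG.out (h9 ▸ (nxt_adj (U := U) hn h3).2)
        · exfalso
          have h7 := h6.symm.trans h4
          have h8 : w ∈ s(b, nxt x y n U b) := by rw [h7]; exact Sym2.mem_mk_right _ _
          rcases Sym2.mem_iff.1 h8 with h9 | h9
          · exact hG.out (h9 ▸ h5)
          · exact hG.out (h9 ▸ (nxt_adj (U := U) hn h5).2)
        · rw [h3, h5]
      · intro v hv
        rw [hFm] at hv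
        obtain ⟨h1, h2⟩ := hg' v hv
        refine ⟨h1, ?_⟩
        rcases h2 with ⟨_, h4⟩ | ⟨h3, h4⟩
        · rw [h4]; exact Sym2.mem_mk_left _ _
        · rw [h4, h3]; exact Sym2.mem_mk_right _ _
    omega

/-- The rank of the edges that touch no vertex of `U`. -/
theorem plus_rank [P.Finite] (hB : Bic P E ends) (hG : GrdP E S ends w x y n) (hn : 3 ≤ n)
    {U : Set (ℕ × ℕ)} (hU : U ⊆ rect (x + 1) (y + 1) (n - 2) (n - 2))
    (hg : ∀ a b, (a, b) ∉ U → (a + 1, b) ∈ U → (a, b + 1) ∉ U) :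
    rk P (E \ pl E ends U) + U.ncard = rk P E := by
  classical
  have hc : ∃ c : Set (ℕ × ℕ), (E = S ∧ c = ∅) ∨ (E ≠ S ∧ c = {w}) := by
    by_cases h : E = S
    · exact ⟨∅, Or.inl ⟨h, rfl⟩⟩
    · exact ⟨{w}, Or.inr ⟨h, rfl⟩⟩
  obtain ⟨c, hc⟩ := hc
  have h1 := plus_rank_aux hB hG hn hU hg c hc
  have h2 := plus_rank_aux hB hG hn (Set.empty_subset (rect (x + 1) (y + 1) (n - 2) (n - 2)))
    (fun a b _ h => absurd h (Set.notMem_empty _)) c hc
  rw [pl_empty, Set.sdiff_empty, Set.ncard_empty] at h2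
  omega

end plus

end BICS
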