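import Pool.Agent.Helper21.STAR.Plus
import Pool.Agent.BICS.Pig

/-!
The cobicircular matroid of the grid: separated squares are skew, vertex stars are circuits, and
one more star can be added as long as the lift defect is not exhausted. (Problem MP_5165fa_co.)
-/

open Set BIC
open scoped Matroid

namespace BICS

universe u

section dual

variable {α : Type*} {P : Matroid α} {E : Set α}

/-- ranks in the dual of the restriction to `E` -/
lemma rk_cob [P.Finite] (hE : E ⊆ P.E) {X : Set α} (hX : X ⊆ E) :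
    rk (P✶ ／ (P.E \ E)) X + rk P E = rk P (E \ X) + X.ncard := by
  have hfin := P.ground_finite
  have h1 := rk_contract_set (M := P✶) (C := P.E \ E) (X := X) sdiff_subset
    (fun e he => ⟨hE (hX he), fun h => h.2 (hX he)⟩)
  have h2 := rk_dual (M := P) (X := P.E \ E) sdiff_subset
  have h3 := rk_dual (M := P) (X := X ∪ P.E \ E) (union_subset (hX.trans hE) sdiff_subset)
  have h4 : P.E \ (P.E \ E) = E := sdiff_sdiff_cancel_left hE
  have h5 : P.E \ (X ∪ P.E \ E) = E \ X := by
    ext e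
    simp only [mem_sdiff, mem_union]
    constructor
    · rintro ⟨h6, h7⟩
      exact ⟨by by_contra h8; exact h7 (Or.inr ⟨h6, h8⟩), fun h8 => h7 (Or.inl h8)⟩
    · rintro ⟨h6, h7⟩
      exact ⟨hE h6, fun h8 => h8.elim h7 (fun h9 => h9.2 h6)⟩
  have h6 : (X ∪ P.E \ E).ncard = X.ncard + (P.E \ E).ncard := by
    refine Set.ncard_union_eq ?_ (hfin.subset (hX.trans hE)) (hfin.subset sdiff_subset)
    rw [Set.disjoint_left]
    intro e he he'
    exact he'.2 (hX he)
  rw [h4] at h2
  rw [h5, h6] at h3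
  omega

lemma quo_con {M : Matroid α} [M.Finite] {C F : Set α} (hC : C ⊆ M.E) (hF : F ⊆ M.E \ C) :
    Quo M (M ／ C) F := by
  intro X Y hXY hY
  have e1 := rk_contract_set hC (hY.trans hF)
  have e2 := rk_contract_set hC ((hXY.trans hY).trans hF)
  have s := rk_submod M Y (X ∪ C)
  have h1 : rk M X ≤ rk M (Y ∩ (X ∪ C)) :=
    rk_mono M (fun x hx => ⟨hXY hx, Or.inl hx⟩)
  have h2 : Y ∪ (X ∪ C) = Y ∪ C := by
    rw [← union_assoc, union_eq_self_of_subset_right hXY]
  rw [h2] at s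
  omega

lemma quo_cob [P.Finite] (hE : E ⊆ P.E) : Quo P✶ (P✶ ／ (P.E \ E)) E :=
  quo_con (M := P✶) sdiff_subset (fun _ he => ⟨hE he, fun h => h.2 he⟩)

end dual

/-- Additivity on two sets passes to subsets. -/
lemma skew_sub {α : Type*} {N : Matroid α} [N.Finite] {A B X Y : Set α}
    (h : rk N A + rk N B ≤ rk N (A ∪ B)) (hX : X ⊆ A) (hY : Y ⊆ B) :
    rk N X + rk N Y ≤ rk N (X ∪ Y) := by
  have h1 := rk_submod N (X ∪ Y) A
  have h2 := rk_submod N (A ∪ Y) B
  have h3 : rk N X ≤ rk N ((X ∪ Y) ∩ A) := rk_mono N (fun e he => ⟨Or.inl he, hX he⟩)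
  have h4 : rk N Y ≤ rk N ((A ∪ Y) ∩ B) := rk_mono N (fun e he => ⟨Or.inr he, hY he⟩)
  have h5 : rk N (A ∪ Y) ≤ rk N ((X ∪ Y) ∪ A) := rk_mono N (by
    rintro e (he | he)
    · exact Or.inr he
    · exact Or.inl (Or.inr he))
  have h6 : rk N (A ∪ B) ≤ rk N ((A ∪ Y) ∪ B) := rk_mono N (by
    rintro e (he | he)
    · exact Or.inl (Or.inl he)
    · exact Or.inr he)
  omega

/-- A set of inner vertices whose complement is matched by edges that do not touch it. -/
def Gd (x y n : ℕ) (U : Set (ℕ × ℕ)) : Prop :=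
  U ⊆ rect (x + 1) (y + 1) (n - 2) (n - 2) ∧ ∀ a b, (a, b) ∉ U → (a + 1, b) ∈ U → (a, b + 1) ∉ U

section geo

variable {x y n : ℕ}

lemma gd_rect {a b c d : ℕ} (h : rect a b c d ⊆ rect (x + 1) (y + 1) (n - 2) (n - 2)) :
    Gd x y n (rect a b c d) := by
  refine ⟨h, ?_⟩
  intro i j h1 h2 h3
  rw [mem_rct2] at h1 h2 h3
  simp only at h1 h2 h3
  omega

lemma gd_two {a b c d a' b' c' d' : ℕ} (h : rect a b c d ⊆ rect (x + 1) (y + 1) (n - 2) (n - 2))
    (h' : rect a' b' c' d' ⊆ rect (x + 1) (y + 1) (n - 2) (n - 2)) (hs : a + c < a') :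
    Gd x y n (rect a b c d ∪ rect a' b' c' d') := by
  refine ⟨union_subset h h', ?_⟩
  intro i j h1 h2 h3
  rw [mem_union, mem_rct2, mem_rct2] at h1 h2 h3
  simp only at h1 h2 h3
  omega

lemma gd_single {v : ℕ × ℕ} (h : v ∈ rect (x + 1) (y + 1) (n - 2) (n - 2)) : Gd x y n {v} := by
  refine ⟨by rintro _ rfl; exact h, ?_⟩
  rintro i j h1 h2 h3
  rw [Set.mem_singleton_iff] at h1 h2 h3
  rw [← h2, Prod.mk.injEq] at h3
  omega

end geo

section cob

variable {α : Type*} {P N : Matroid α} {E S : Set α} {ends : α → Sym2 (ℕ × ℕ)} {w : ℕ × ℕ}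
  {x y n : ℕ}

/-- the nullity of a plus set is the number of its vertices -/
lemma rk_pl [P.Finite] (hN : ∀ X ⊆ E, rk N X + rk P E = rk P (E \ X) + X.ncard)
    (hB : Bic P E ends) (hG : GrdP E S ends w x y n) (hn : 3 ≤ n) {U : Set (ℕ × ℕ)}
    (hU : Gd x y n U) : rk N (pl E ends U) + U.ncard = (pl E ends U).ncard := by
  have h1 := plus_rank hB hG hn hU.1 hU.2
  have h2 := hN _ (pl_sub (ends := ends) (U := U))
  omega

/-- separated vertex sets have disjoint plus sets -/
lemma pl_disj (hG : GrdP E S ends w x y n) {U U' : Set (ℕ × ℕ)} (hU : U ⊆ rect x y n n)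
    (hU' : U' ⊆ rect x y n n) (hd : Disjoint U U')
    (hs : ∀ p ∈ U, ∀ q ∈ U', ¬ adj p q) : Disjoint (pl E ends U) (pl E ends U') := by
  rw [Set.disjoint_left]
  rintro e ⟨he, p, hp, hp'⟩ ⟨_, q, hq, hq'⟩
  have hpq : p ≠ q := fun h => Set.disjoint_left.1 hd hp (h ▸ hq)
  have h1 : ends e = s(p, q) := ((Sym2.mem_and_mem_iff hpq).1 ⟨hp', hq'⟩)
  by_cases heS : e ∈ S
  · obtain ⟨p', q', h2, h3, _, _⟩ := hG.grd.mem e heS
    rw [h1, Sym2.eq_iff] at h2
    rcases h2 with ⟨h4, h5⟩ | ⟨h4, h5⟩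
    · subst h4; subst h5
      exact hs _ hp _ hq h3
    · subst h4; subst h5
      refine hs _ hp _ hq ?_
      unfold adj at h3 ⊢
      omega
  · obtain ⟨v, hv, h2⟩ := hG.star e ⟨he, heS⟩
    rw [h1, Sym2.eq_iff] at h2
    rcases h2 with ⟨_, h5⟩ | ⟨h4, _⟩
    · exact hG.out (h5 ▸ hU' hq)
    · exact hG.out (h4 ▸ hU hp)

/-- plus sets of separated squares are skew -/
lemma skew_pl [P.Finite] [N.Finite] (hN : ∀ X ⊆ E, rk N X + rk P E = rk P (E \ X) + X.ncard)
    (hB : Bic P E ends) (hG : GrdP E S ends w x y n) (hn : 3 ≤ n) {U U' : Set (ℕ × ℕ)}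
    (hU : Gd x y n U) (hU' : Gd x y n U') (hUU : Gd x y n (U ∪ U')) (hd : Disjoint U U')
    (hs : ∀ p ∈ U, ∀ q ∈ U', ¬ adj p q) {X Y : Set α} (hX : X ⊆ pl E ends U)
    (hY : Y ⊆ pl E ends U') : rk N (X ∪ Y) = rk N X + rk N Y := by
  have hin : ∀ {W : Set (ℕ × ℕ)}, Gd x y n W → W ⊆ rect x y n n := by
    intro W hW
    refine hW.1.trans ?_
    rintro p ⟨h1, h2, h3, h4⟩
    exact ⟨by omega, by omega, by omega, by omega⟩
  have hEf : E.Finite := P.ground_finite.subset hB.sub
  have h1 := rk_pl hN hB hG hn hU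
  have h2 := rk_pl hN hB hG hn hU'
  have h3 := rk_pl hN hB hG hn hUU
  have hrf := rect_finite x y n
  have h4 := Set.ncard_union_eq hd (hrf.subset (hin hU)) (hrf.subset (hin hU'))
  have h5 := Set.ncard_union_eq (pl_disj (ends := ends) hG (hin hU) (hin hU') hd hs)
    (hEf.subset pl_sub) (hEf.subset pl_sub)
  rw [pl_union] at h3
  have h6 := skew_sub (N := N) (A := pl E ends U) (B := pl E ends U') (by omega) hX hY
  have h7 := rk_submod N X Y
  omega

/-- an edge at `v` raises the rank of the edges not touching `v` -/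
lemma star_edge_indep [P.Finite] (hB : Bic P E ends) {v : ℕ × ℕ} {e : α} (he : e ∈ pl E ends {v}) :
    rk P (E \ pl E ends {v}) + 1 ≤ rk P (insert e (E \ pl E ends {v})) := by
  classical
  obtain ⟨I, hI, hIi, hIc⟩ := exists_basis_rk (N := P) (E \ pl E ends {v})
    (sdiff_subset.trans hB.sub)
  have hIf := P.ground_finite.subset hIi.subset_ground
  have hIE : I ⊆ E := hI.trans sdiff_subset
  obtain ⟨φ, hφ, hφe⟩ := Bic_choice hB hIi hIE hIf
  have heI : e ∉ I := fun h => (hI h).2 he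
  have hev : v ∈ ends e := by
    obtain ⟨_, v', hv', h⟩ := he
    rw [Set.mem_singleton_iff] at hv'
    exact hv' ▸ h
  have hne : ∀ a ∈ I, v ∉ ends a := fun a ha h => (hI ha).2 ⟨hIE ha, v, rfl, h⟩
  have h1 : P.Indep (insert e I) := by
    refine hB.ind _ (fun a => if a = e then v else φ a) (insert_subset he.1 hIE) ?_ ?_
    · rintro a (rfl | ha) b (rfl | hb) hab
      · rfl
      · exfalso
        have hba : b ≠ a := fun h => heI (h ▸ hb)
        have hab' : v = φ b := by simpa [hba] using hab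
        exact hne b hb (hab' ▸ hφe b hb)
      · exfalso
        have hba : a ≠ b := fun h => heI (h ▸ ha)
        have hab' : φ a = v := by simpa [hba] using hab
        exact hne a ha (hab' ▸ hφe a ha)
      · have h2 : a ≠ e := fun h => heI (h ▸ ha)
        have h3 : b ≠ e := fun h => heI (h ▸ hb)
        simp only [if_neg h2, if_neg h3] at hab
        exact hφ ha hb hab
    · rintro a (rfl | ha)
      · simp only [if_true]; exact hev
      · have h2 : a ≠ e := fun h => heI (h ▸ ha)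
        simp only [if_neg h2]
        exact hφe a ha
  have h2 := rk_mono P (insert_subset_insert hI : insert e I ⊆ insert e (E \ pl E ends {v}))
  rw [rk_indep h1, Set.ncard_insert_of_notMem heI hIf] at h2
  omega

/-- proper subsets of a vertex star are independent in the cobicircular matroid -/
lemma star_proper [P.Finite] (hN : ∀ X ⊆ E, rk N X + rk P E = rk P (E \ X) + X.ncard)
    (hB : Bic P E ends) (hG : GrdP E S ends w x y n) (hn : 3 ≤ n) {v : ℕ × ℕ}
    (hv : v ∈ rect (x + 1) (y + 1) (n - 2) (n - 2)) {e : α} (he : e ∈ pl E ends {v}) :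
    (pl E ends {v}).ncard ≤ rk N (pl E ends {v} \ {e}) + 1 := by
  have hEf : E.Finite := P.ground_finite.subset hB.sub
  have h1 := star_edge_indep hB he
  have h2 := plus_rank hB hG hn (gd_single hv).1 (gd_single hv).2
  have h3 := hN (pl E ends {v} \ {e}) (sdiff_subset.trans pl_sub)
  have h4 : insert e (E \ pl E ends {v}) ⊆ E \ (pl E ends {v} \ {e}) := by
    rintro a (rfl | ha)
    · exact ⟨he.1, fun h => h.2 rfl⟩
    · exact ⟨ha.1, fun h => ha.2 h.1⟩
  have h5 := rk_mono P h4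
  have h6 := Set.ncard_sdiff_singleton_add_one he (hEf.subset pl_sub)
  rw [Set.ncard_singleton] at h2
  omega

/-- the edge from `v` to the vertex above -/
lemma up_edge (hG : GrdP E S ends w x y n) {v : ℕ × ℕ}
    (hv : v ∈ rect (x + 1) (y + 1) (n - 2) (n - 2)) :
    ∃ e ∈ pl E ends {v}, ends e = s(v, (v.1, v.2 + 1)) := by
  obtain ⟨h1, h2, h3, h4⟩ := hv
  obtain ⟨e, he, he'⟩ := hG.grd.surj v (v.1, v.2 + 1) (Or.inl ⟨rfl, Or.inl rfl⟩)
    ⟨by omega, by omega, by omega, by omega⟩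
    ⟨by simp only; omega, by simp only; omega, by simp only; omega, by simp only; omega⟩
  refine ⟨e, ⟨hG.sub he, v, rfl, ?_⟩, he'⟩
  rw [he']
  exact Sym2.mem_mk_left _ _

/-- If every star of `W` is dependent over `Z`, then the nullity of the plus set over `Z` is at
least the number of vertices. -/
lemma stars_dep {L : Matroid α} [P.Finite] [L.Finite] [N.Finite]
    (hN : ∀ X ⊆ E, rk N X + rk P E = rk P (E \ X) + X.ncard) (hQ : Quo L N E)
    (hB : Bic P E ends) (hG : GrdP E S ends w x y n) (hn : 3 ≤ n) {Z : Set α} (hZ : Z ⊆ E)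
    (W : Finset (ℕ × ℕ)) :
    (∀ v ∈ W, v ∈ rect (x + 1) (y + 1) (n - 2) (n - 2)) →
    (∀ v ∈ W, ∀ Y ⊆ pl E ends {v}, rk N Z + rk N Y ≤ rk N (Z ∪ Y)) →
    (∀ v ∈ W, rk L (Z ∪ pl E ends {v}) + 1 ≤ rk L Z + (pl E ends {v}).ncard) →
    rk L (Z ∪ pl E ends W) + W.card ≤ rk L Z + (pl E ends W).ncard := by
  classical
  have hEf : E.Finite := P.ground_finite.subset hB.sub
  refine Finset.induction_on_max_value (fun v : ℕ × ℕ => v.2) W ?_ ?_
  · intro _ _ _
    rw [Finset.coe_empty, pl_empty, union_empty, Finset.card_empty]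
    omega
  · intro v W hvW hmax ih h1 h2 h3
    have ih' := ih (fun z hz => h1 z (Finset.mem_insert_of_mem hz))
      (fun z hz => h2 z (Finset.mem_insert_of_mem hz))
      (fun z hz => h3 z (Finset.mem_insert_of_mem hz))
    have hv := h1 v (Finset.mem_insert_self _ _)
    have hsk := h2 v (Finset.mem_insert_self _ _)
    have hdep := h3 v (Finset.mem_insert_self _ _)
    obtain ⟨e, he, hee⟩ := up_edge hG hv
    have heW : e ∉ pl E ends (W : Set (ℕ × ℕ)) := by
      rintro ⟨_, z, hz, hz'⟩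
      rw [hee] at hz'
      rcases Sym2.mem_iff.1 hz' with rfl | rfl
      · exact hvW hz
      · have := hmax _ hz
        simp only at this
        omega
    have hcoe : pl E ends ((insert v W : Finset (ℕ × ℕ)) : Set (ℕ × ℕ)) =
        pl E ends (W : Set (ℕ × ℕ)) ∪ pl E ends {v} := by
      rw [Finset.coe_insert, ← pl_union, Set.union_comm, Set.insert_eq]
    rw [hcoe, Finset.card_insert_of_notMem hvW]
    set A := pl E ends (W : Set (ℕ × ℕ)) with hA
    set B := pl E ends {v} with hBd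
    have hAf : A.Finite := hEf.subset pl_sub
    have hBf : B.Finite := hEf.subset pl_sub
    -- the rest of the star spans `e`
    have g1 : B.ncard ≤ rk N (B \ {e}) + 1 := star_proper (N := N) hN hB hG hn hv he
    have g2 := hQ Z (Z ∪ B \ {e}) subset_union_left
      (union_subset hZ (sdiff_subset.trans pl_sub))
    have g3 := hsk (B \ {e}) sdiff_subset
    have g4 := rk_submod L (Z ∪ (A ∪ B \ {e})) (Z ∪ B)
    have g5 : rk L (Z ∪ B \ {e}) ≤ rk L ((Z ∪ (A ∪ B \ {e})) ∩ (Z ∪ B)) := rk_mono L (by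
      rintro a (ha | ha)
      · exact ⟨Or.inl ha, Or.inl ha⟩
      · exact ⟨Or.inr (Or.inr ha), Or.inr ha.1⟩)
    have g6 : rk L (Z ∪ (A ∪ B)) ≤ rk L ((Z ∪ (A ∪ B \ {e})) ∪ (Z ∪ B)) := rk_mono L (by
      rintro a (ha | ha | ha)
      · exact Or.inl (Or.inl ha)
      · exact Or.inl (Or.inr (Or.inl ha))
      · exact Or.inr (Or.inr ha))
    have g7 : rk L (Z ∪ (A ∪ B \ {e})) ≤ rk L (Z ∪ A) + ((B \ {e}) \ A).ncard := by
      refine le_trans (rk_mono L ?_) (rk_union_le L (X := Z ∪ A) (Y := (B \ {e}) \ A)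
        (hBf.subset (sdiff_subset.trans sdiff_subset)))
      rintro a (ha | ha | ha)
      · exact Or.inl (Or.inl ha)
      · exact Or.inl (Or.inr ha)
      · by_cases haA : a ∈ A
        · exact Or.inl (Or.inr haA)
        · exact Or.inr ⟨ha, haA⟩
    have g8 : ((B \ {e}) \ A).ncard + 1 = (B \ A).ncard := by
      have : (B \ {e}) \ A = (B \ A) \ {e} := by
        ext a
        simp only [mem_sdiff]
        tauto
      rw [this]
      exact Set.ncard_sdiff_singleton_add_one ⟨he, heW⟩ (hBf.subset sdiff_subset)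
    have g9 : (A ∪ B).ncard = A.ncard + (B \ A).ncard := by
      rw [← Set.union_sdiff_self, Set.ncard_union_eq Set.disjoint_sdiff_right hAf
        (hBf.subset sdiff_subset)]
    omega

end cob

end BICS
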